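import Pool.Agent.Lib.MP_a4feb0_gt.LP.Weak

/-!
Locally precompact groups with the open mapping property and countable tightness that are
nilpotent by nilpotent are first countable.
-/

set_option autoImplicit false

open Filter Topology Set Pointwise

namespace Pool.Agent.Lib.MP_a4feb0_gt.LP

universe u

variable {G : Type u} [Group G] [TopologicalSpace G] [IsTopologicalGroup G]

theorem step (A : Subgroup G) [A.Normal] (hP : IsPrecompactGroup (G ⧸ A)) {V : Set G}
    (hV : V ∈ 𝓝 (1 : G)) :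
    ∃ V' ∈ 𝓝 (1 : G), ∀ g : G, ∃ a ∈ A, ∀ x ∈ V', g * a * x * (g * a)⁻¹ ∈ V := by
  obtain ⟨W, hW, hWi, hW3⟩ := exists_symm3 (G := G) hV
  obtain ⟨F, hF, hFW⟩ := hP _ (QuotientGroup.isOpenMap_coe.image_mem_nhds hW)
  refine ⟨⋂ f ∈ F, (fun x => f.out⁻¹ * x * f.out) ⁻¹' W, ?_, fun g => ?_⟩
  · refine (biInter_mem hF).mpr fun f _ => ?_
    have hc : Continuous fun x : G => f.out⁻¹ * x * f.out := by fun_prop
    exact hc.continuousAt.preimage_mem_nhds (by simpa using hW)
  · obtain ⟨f, hf, _, ⟨w, hw, rfl⟩, e⟩ : ((g⁻¹ : G) : G ⧸ A) ∈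
        F * ((QuotientGroup.mk : G → G ⧸ A) '' W) := by
      rw [hFW]
      exact mem_univ _
    have h1 : g⁻¹ * (f.out * w)⁻¹ ∈ A := by
      have e' : f * (w : G ⧸ A) = ((g⁻¹ : G) : G ⧸ A) := e
      rw [← QuotientGroup.eq, QuotientGroup.mk_inv, QuotientGroup.mk_mul, QuotientGroup.out_eq',
        e', QuotientGroup.mk_inv, inv_inv]
    refine ⟨_, h1, fun x hx => ?_⟩
    have h2 := hW3 _ (hWi _ hw) _ (mem_iInter₂.1 hx f hf) _ hw
    simpa [mul_assoc] using h2

theorem exists_seq (A : Subgroup G) [A.Normal] (hP : IsPrecompactGroup (G ⧸ A))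
    (B : ℕ → Set G) (hB : ∀ n, B n ∈ 𝓝 (1 : G)) :
    ∃ V : ℕ → Set G, (∀ n, V n ∈ 𝓝 (1 : G)) ∧ (∀ n, V n ⊆ B n) ∧ (∀ n, ∀ x ∈ V n, x⁻¹ ∈ V n) ∧
      (∀ n, ∀ a ∈ V (n + 1), ∀ b ∈ V (n + 1), ∀ c ∈ V (n + 1), a * b * c ∈ V n) ∧
      ∀ n, ∀ g : G, ∃ a ∈ A, ∀ x ∈ V (n + 1), g * a * x * (g * a)⁻¹ ∈ V n := by
  have h : ∀ (n : ℕ) (V : Set G), ∃ V' : Set G, V ∈ 𝓝 (1 : G) → V' ∈ 𝓝 (1 : G) ∧ V' ⊆ B n ∧
      (∀ x ∈ V', x⁻¹ ∈ V') ∧ (∀ a ∈ V', ∀ b ∈ V', ∀ c ∈ V', a * b * c ∈ V) ∧
      ∀ g : G, ∃ a ∈ A, ∀ x ∈ V', g * a * x * (g * a)⁻¹ ∈ V := fun n V => by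
    by_cases hV : V ∈ 𝓝 (1 : G)
    · obtain ⟨W, hW, h1⟩ := step A hP hV
      obtain ⟨V', hV', h2, h3⟩ := exists_symm3 (G := G) (inter_mem (inter_mem hV hW) (hB n))
      have h4 : V' ⊆ V ∩ W ∩ B n := fun x hx => by
        simpa using h3 x hx 1 (mem_of_mem_nhds hV') 1 (mem_of_mem_nhds hV')
      refine ⟨V', fun _ => ⟨hV', fun x hx => (h4 hx).2, h2,
        fun a ha b hb c hc => (h3 a ha b hb c hc).1.1, fun g => ?_⟩⟩
      obtain ⟨a, ha, h5⟩ := h1 g
      exact ⟨a, ha, fun x hx => h5 x (h4 hx).1.2⟩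
    · exact ⟨univ, fun h1 => absurd h1 hV⟩
  choose nx hnx using h
  let V : ℕ → Set G := fun n => Nat.rec (nx 0 univ) (fun n W => nx (n + 1) W) n
  have hV : ∀ n, V n ∈ 𝓝 (1 : G) := fun n => by
    induction n with
    | zero => exact (hnx 0 univ univ_mem).1
    | succ n ih => exact (hnx (n + 1) (V n) ih).1
  refine ⟨V, hV, fun n => ?_, fun n => ?_, fun n => (hnx (n + 1) (V n) (hV n)).2.2.2.1,
    fun n => (hnx (n + 1) (V n) (hV n)).2.2.2.2⟩
  · cases n with
    | zero => exact (hnx 0 univ univ_mem).2.1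
    | succ n => exact (hnx (n + 1) (V n) (hV n)).2.1
  · cases n with
    | zero => exact (hnx 0 univ univ_mem).2.2.1
    | succ n => exact (hnx (n + 1) (V n) (hV n)).2.2.1

/-- Small closed normal subgroups with first countable quotient. -/
theorem exists_kernel (hG : OMP G) (A C : Subgroup G) [A.Normal] [C.Normal]
    (hA : IsClosed (A : Set G)) (hcomm : ∀ c ∈ C, ∀ a ∈ A, c * a = a * c)
    (hP : IsPrecompactGroup (G ⧸ C))
    [(𝓝 (1 : G ⧸ A)).IsCountablyGenerated] {U₀ : Set G} (hU₀ : U₀ ∈ 𝓝 (1 : G)) :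
    ∃ (N : Subgroup G) (_ : N.Normal), IsClosed (N : Set G) ∧ N ≤ A ∧ (N : Set G) ⊆ U₀ ∧
      (𝓝 (1 : G ⧸ N)).IsCountablyGenerated := by
  obtain ⟨b, hb⟩ := (𝓝 (1 : G ⧸ A)).exists_antitone_basis
  obtain ⟨V, hV, hVB, hVi, hV3, hVg⟩ := exists_seq C hP
    (fun n => U₀ ∩ (QuotientGroup.mk : G → G ⧸ A) ⁻¹' b n) fun n => inter_mem hU₀
      (QuotientGroup.continuous_mk.continuousAt.preimage_mem_nhds (hb.mem n))
  have hV1 : ∀ n, (1 : G) ∈ V n := fun n => mem_of_mem_nhds (hV n)
  have hV2 : ∀ n, ∀ x ∈ V (n + 1), ∀ y ∈ V (n + 1), x * y ∈ V n := fun n x hx y hy => by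
    simpa using hV3 n x hx y hy 1 (hV1 _)
  have hanti : Antitone V := antitone_nat_of_succ_le fun n x hx => by
    simpa using hV2 n x hx 1 (hV1 _)
  have hcA : ∀ a ∈ C, ∀ n, ∃ m, ∀ x ∈ V m, a * x * a⁻¹ ∈ V n := fun a ha n => by
    have hc : Continuous fun y : G => a * y * a⁻¹ * y⁻¹ := by fun_prop
    have h1 : (fun y : G => a * y * a⁻¹ * y⁻¹) ⁻¹' V (n + 1) ∈ 𝓝 (1 : G) :=
      hc.continuousAt.preimage_mem_nhds (by simpa using hV (n + 1))
    obtain ⟨k, hk⟩ := hb.mem_iff.mp
      (show (QuotientGroup.mk : G → G ⧸ A) '' _ ∈ 𝓝 (1 : G ⧸ A) from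
        QuotientGroup.isOpenMap_coe.image_mem_nhds h1)
    refine ⟨max k (n + 1), fun x hx => ?_⟩
    obtain ⟨y, hy, e⟩ := hk (hVB k (hanti (le_max_left _ _) hx)).2
    have h2 : y⁻¹ * x ∈ A := QuotientGroup.eq.mp e
    have h3 : y⁻¹ * x * a⁻¹ = a⁻¹ * (y⁻¹ * x) := (hcomm _ (C.inv_mem ha) _ h2).symm
    have h4 : a * x * a⁻¹ = a * y * a⁻¹ * y⁻¹ * x := by
      calc a * x * a⁻¹ = a * y * (y⁻¹ * x * a⁻¹) := by group
        _ = a * y * a⁻¹ * y⁻¹ * x := by rw [h3]; group
    rw [h4]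
    exact hV2 n _ hy _ (hanti (le_max_right _ _) hx)
  have hcG : ∀ (g : G) (n : ℕ), ∃ m, ∀ x ∈ V m, g * x * g⁻¹ ∈ V n := fun g n => by
    obtain ⟨a, ha, h1⟩ := hVg n g
    obtain ⟨m, hm⟩ := hcA a⁻¹ (C.inv_mem ha) (n + 1)
    refine ⟨m, fun x hx => ?_⟩
    simpa [mul_assoc] using h1 _ (hm x hx)
  let N : Subgroup G :=
    { carrier := ⋂ n, V n
      one_mem' := mem_iInter.2 hV1
      mul_mem' := fun hx hy => mem_iInter.2 fun n =>
        hV2 n _ (mem_iInter.1 hx _) _ (mem_iInter.1 hy _)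
      inv_mem' := fun hx => mem_iInter.2 fun n => hVi n _ (mem_iInter.1 hx _) }
  have hNn : N.Normal := ⟨fun x hx g => mem_iInter.2 fun n => by
    obtain ⟨m, hm⟩ := hcG g n
    exact hm x (mem_iInter.1 hx _)⟩
  have hbas : (⨅ n, 𝓟 (V n)).HasBasis (fun _ => True) V :=
    hasBasis_iInf_principal hanti.directed_ge
  refine ⟨N, hNn, ?_, fun x hx => ?_, fun x hx => (hVB 0 (mem_iInter.1 hx 0)).1, ?_⟩
  · refine isClosed_of_closure_subset fun x hx => mem_iInter.2 fun n => ?_
    have hc : Continuous fun y : G => y⁻¹ * x := by fun_prop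
    obtain ⟨y, hy, hyN⟩ := mem_closure_iff_nhds.1 hx _
      (hc.continuousAt.preimage_mem_nhds (t := V (n + 1)) (by simpa using hV (n + 1)))
    simpa using hV2 n y (mem_iInter.1 hyN _) _ hy
  · by_contra hxA
    have h1 : ({(x : G ⧸ A)}ᶜ : Set (G ⧸ A)) ∈ 𝓝 (1 : G ⧸ A) :=
      isOpen_compl_singleton.mem_nhds fun h => hxA ((QuotientGroup.eq_one_iff x).1 h.symm)
    obtain ⟨k, hk⟩ := hb.mem_iff.mp h1
    exact hk (hVB k (mem_iInter.1 hx k)).2 rfl
  · have e : 𝓝 (1 : G ⧸ N) = ⨅ n, 𝓟 ((QuotientGroup.mk : G → G ⧸ N) '' V n) := by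
      refine le_antisymm (le_iInf fun n => le_principal_iff.2
        (QuotientGroup.isOpenMap_coe.image_mem_nhds (hV n))) fun T hT => ?_
      obtain ⟨W, hW, h1⟩ := coarse hG (⨅ n, 𝓟 (V n))
        (fun W hW => by
          obtain ⟨n, -, hn⟩ := hbas.mem_iff.1 hW
          exact hn (hV1 n))
        (fun W hW => by
          obtain ⟨n, -, hn⟩ := hbas.mem_iff.1 hW
          exact ⟨_, hbas.mem_of_mem (i := n + 1) trivial, fun x hx y hy => hn (hV2 n x hx y hy)⟩)
        (fun W hW => by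
          obtain ⟨n, -, hn⟩ := hbas.mem_iff.1 hW
          exact ⟨_, hbas.mem_of_mem (i := n) trivial, fun x hx => hn (hVi n x hx)⟩)
        (fun g W hW => by
          obtain ⟨n, -, hn⟩ := hbas.mem_iff.1 hW
          obtain ⟨m, hm⟩ := hcG g n
          exact ⟨_, hbas.mem_of_mem (i := m) trivial, fun x hx => hn (hm x hx)⟩)
        (fun W hW => by
          obtain ⟨n, -, hn⟩ := hbas.mem_iff.1 hW
          exact ⟨_, hV (n + 1), _, hbas.mem_of_mem (i := n + 1) trivial, fun x hx y hy =>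
            hn (hV3 n x hx y hy _ (hVi _ x hx))⟩)
        _ (QuotientGroup.continuous_mk.continuousAt.preimage_mem_nhds hT)
      obtain ⟨n, -, hn⟩ := hbas.mem_iff.1 hW
      refine mem_iInf_of_mem n (mem_principal.2 ?_)
      rintro _ ⟨v, hv, rfl⟩
      obtain ⟨w, hw, h2⟩ := h1 v (hn hv)
      have h3 : w⁻¹ * v ∈ N := mem_iInter.2 fun k => by
        obtain ⟨x, hx, y, hy, h4⟩ := h2 _ (hV (k + 1)) _ (hbas.mem_of_mem (i := k + 1) trivial)
        rw [← h4]
        exact hV2 k x hx y hy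
      rw [← QuotientGroup.eq.2 h3]
      exact hw
    rw [e]
    infer_instance

/-- Continuous characters of precompact normal subgroups have open stabilisers. -/
theorem nhds_fix (N : Subgroup G) [N.Normal] (hN : IsPrecompactGroup N) (χ : N →* Circle)
    (hχ : Continuous χ) :
    ∃ U ∈ 𝓝 (1 : G), ∀ u ∈ U, ∀ a : N, χ (MulAut.conjNormal u a) = χ a := by
  have hc : Continuous fun z : Circle => ‖(z : ℂ) - 1‖ :=
    (continuous_subtype_val.sub continuous_const).norm
  obtain ⟨O, hO, hOO⟩ := exists_nhds_one_split (M := Circle)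
    ((isOpen_lt hc continuous_const).mem_nhds (show ‖((1 : Circle) : ℂ) - 1‖ < 1 by simp))
  have h1 : χ ⁻¹' O ∈ 𝓝 (1 : N) := hχ.continuousAt.preimage_mem_nhds (by rwa [map_one])
  rw [nhds_subtype_eq_comap, mem_comap] at h1
  obtain ⟨U, hU, hUχ⟩ := h1
  have hc2 : Continuous fun p : G × G => p.1 * p.2 * p.1⁻¹ * p.2⁻¹ := by fun_prop
  have h2 : (fun p : G × G => p.1 * p.2 * p.1⁻¹ * p.2⁻¹) ⁻¹' U ∈ 𝓝 ((1 : G), (1 : G)) :=
    hc2.continuousAt.preimage_mem_nhds (by simpa using hU)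
  obtain ⟨W, hW, W', hW', hWW⟩ := mem_nhds_prod_iff.1 h2
  obtain ⟨F, hF, hFW⟩ := hN _ (continuous_subtype_val.continuousAt.preimage_mem_nhds hW')
  refine ⟨W ∩ ⋂ f ∈ F, (fun u : G => u * f * u⁻¹ * (f : G)⁻¹) ⁻¹' U, inter_mem hW ?_,
    fun u hu a => ?_⟩
  · refine (biInter_mem hF).mpr fun f _ => ?_
    have hc3 : Continuous fun u : G => u * f * u⁻¹ * (f : G)⁻¹ := by fun_prop
    exact hc3.continuousAt.preimage_mem_nhds (by simpa using hU)
  · let ψ : N →* Circle := χ.comp (MulAut.conjNormal u : N ≃* N).toMonoidHom * χ⁻¹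
    have h3 : ∀ c : N, u * c * u⁻¹ * (c : G)⁻¹ ∈ U → ψ c ∈ O := fun c h => by
      have e : ψ c = χ (MulAut.conjNormal u c * c⁻¹) := by
        rw [map_mul, map_inv]
        rfl
      rw [e]
      exact hUχ h
    have h4 := char_eq_one_of_small ψ fun c => by
      obtain ⟨f, hf, w, hw, rfl⟩ : c ∈ F * (Subtype.val ⁻¹' W') := by
        rw [hFW]
        exact mem_univ _
      show ‖((ψ (f * w) : Circle) : ℂ) - 1‖ < 1
      rw [map_mul]
      exact hOO _ (h3 f (mem_iInter₂.1 hu.2 f hf)) _ (h3 w (hWW (mk_mem_prod hu.1 hw)))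
    exact mul_inv_eq_one.1 (DFunLike.congr_fun h4 a)

theorem mem_submodule (hG : OMP G) (N : Subgroup G) [N.Normal] (hN : IsClosed (N : Set G))
    (hP : IsPrecompactGroup N) (S : Submodule ℤ (Additive (chars N)))
    (hS : ∀ g x, x ∈ S → repChars N g x ∈ S) (y : Additive (chars N))
    (hy : ∀ a : N, (∀ z ∈ S, (Additive.toMul z).1 a = 1) → (Additive.toMul y).1 a = 1) :
    y ∈ S := by
  let M : Subgroup (N →* Circle) :=
    { carrier := {ψ | ∃ z ∈ S, (Additive.toMul z).1 = ψ}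
      one_mem' := ⟨0, S.zero_mem, rfl⟩
      mul_mem' := by
        rintro _ _ ⟨z, hz, rfl⟩ ⟨z', hz', rfl⟩
        exact ⟨z + z', S.add_mem hz hz', rfl⟩
      inv_mem' := by
        rintro _ ⟨z, hz, rfl⟩
        exact ⟨-z, S.neg_mem hz, rfl⟩ }
  obtain ⟨z, hz, hzy⟩ := mem_of_annihilates hG N hN M
    (by rintro _ ⟨z, -, rfl⟩; exact (Additive.toMul z).2)
    (by
      rintro g _ ⟨z, hz, rfl⟩
      refine ⟨_, hS g⁻¹ z hz, MonoidHom.ext fun a => ?_⟩
      rw [repChars_apply, inv_inv]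
      rfl)
    (by
      rintro _ ⟨z, -, rfl⟩
      exact nhds_fix N hP _ (Additive.toMul z).2)
    (Additive.toMul y).1 (Additive.toMul y).2 (fun a ha => hy a fun z hz => ha _ ⟨z, hz, rfl⟩)
  have : z = y := Subtype.ext hzy
  rwa [← this]

theorem exists_nhds_fix (N A : Subgroup G) [N.Normal] [A.Normal]
    (hcomm : ∀ c ∈ A, ∀ a ∈ N, c * a = a * c) (hN : IsPrecompactGroup N)
    (hP : IsPrecompactGroup (G ⧸ A)) (χ : Additive (chars N)) :
    ∃ V ∈ 𝓝 (1 : G ⧸ A), ∀ x : G, (x : G ⧸ A) ∈ V → ∀ g : G,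
      repChars N (g * x * g⁻¹) χ = χ := by
  obtain ⟨U, hU, h1⟩ := nhds_fix N hN _ (Additive.toMul χ).2
  obtain ⟨V, hV, h2⟩ := hP.sin
    (QuotientGroup.isOpenMap_coe.image_mem_nhds (inv_mem_nhds_one G hU))
  refine ⟨V, hV, fun x hx g => ?_⟩
  obtain ⟨u, hu, e⟩ := h2 _ hx (g : G ⧸ A)
  have ha : u⁻¹ * (g * x * g⁻¹) ∈ A := QuotientGroup.eq.mp e
  have hfixA : ∀ a ∈ A, repChars N a χ = χ := by
    intro a ha
    refine Subtype.ext (MonoidHom.ext fun b => ?_)
    refine (repChars_apply N a χ b).trans (congrArg _ (Subtype.ext ?_))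
    simp [mul_assoc, ← hcomm a ha b b.2]
  rw [← mul_inv_cancel_left u (g * x * g⁻¹), map_mul, Module.End.mul_apply, hfixA _ ha]
  exact Subtype.ext (MonoidHom.ext fun b => (repChars_apply N u χ b).trans (h1 _ hu b))

theorem countable_chars (hG : OMP G) (hT : HasCountableTightness G) (N A : Subgroup G)
    [N.Normal] [A.Normal] (hN : IsClosed (N : Set G)) (hNA : N ≤ A)
    (hcomm : ∀ c ∈ A, ∀ a ∈ N, c * a = a * c) (hNp : IsPrecompactGroup N)
    (hP : IsPrecompactGroup (G ⧸ A)) [(𝓝 (1 : G ⧸ A)).IsCountablyGenerated] :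
    Countable (chars N) := by
  by_contra hunc
  have hcN : ∀ a b : N, a * b = b * a := fun a b => Subtype.ext (hcomm a (hNA a.2) b b.2)
  obtain ⟨b, hb⟩ := (𝓝 (1 : G ⧸ A)).exists_antitone_basis
  let H : ℕ → Subgroup G := fun n =>
    Subgroup.normalClosure ((QuotientGroup.mk : G → G ⧸ A) ⁻¹' b n)
  have hex : ∃ n, ¬ {x : Additive (chars N) | ∀ h ∈ H n, repChars N h x = x}.Countable := by
    by_contra hall
    push Not at hall
    apply hunc
    show Countable (Additive (chars N))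
    rw [← countable_univ_iff]
    refine (countable_iUnion hall).mono fun χ _ => ?_
    obtain ⟨V, hV, hVχ⟩ := exists_nhds_fix N A hcomm hNp hP χ
    obtain ⟨n, hn⟩ := hb.mem_iff.mp hV
    refine mem_iUnion.mpr ⟨n, fun h hh => ?_⟩
    let St : Subgroup G :=
      { carrier := {h | repChars N h χ = χ}
        one_mem' := by show repChars N 1 χ = χ; rw [map_one]; rfl
        mul_mem' := by
          intro x y hx hy
          show repChars N (x * y) χ = χ
          rw [map_mul, Module.End.mul_apply, hy, hx]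
        inv_mem' := by
          intro x hx
          show repChars N x⁻¹ χ = χ
          conv_lhs => rw [← (show repChars N x χ = χ from hx)]
          rw [← Module.End.mul_apply, ← map_mul, inv_mul_cancel, map_one]
          rfl }
    have hle : H n ≤ St := by
      refine (Subgroup.closure_le St).mpr fun x hx => ?_
      obtain ⟨y, hy, hxy⟩ := Group.mem_conjugatesOfSet_iff.mp hx
      obtain ⟨g, rfl⟩ := isConj_iff.mp hxy
      exact hVχ y (hn hy) g
    exact hle hh
  obtain ⟨n, hn⟩ := hex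
  have : Finite (G ⧸ H n) := by
    obtain ⟨F, hF, hFb⟩ := hP _ (hb.mem n)
    refine Set.finite_univ_iff.mp ((hF.image fun f => (f.out : G ⧸ H n)).subset fun x _ => ?_)
    obtain ⟨g, rfl⟩ := QuotientGroup.mk_surjective x
    obtain ⟨f, hf, y, hy, e⟩ : (g : G ⧸ A) ∈ F * b n := by
      rw [hFb]
      exact mem_univ _
    refine ⟨f, hf, QuotientGroup.eq.2 (Subgroup.subset_normalClosure ?_)⟩
    have e' : f * y = (g : G ⧸ A) := e
    show ((f.out⁻¹ * g : G) : G ⧸ A) ∈ b n
    rwa [QuotientGroup.mk_mul, QuotientGroup.mk_inv, QuotientGroup.out_eq', ← e',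
      inv_mul_cancel_left]
  obtain ⟨S, M, y₀, hanti, hS, hM, hinter, hsup, hy₀⟩ :=
    exists_invariant_family (repChars N) (H n) hn
  let Sig : Subgroup N :=
    { carrier := {a | ∃ C : Set (Additive (chars N)), C.Countable ∧
        ∀ z ∈ S C, (Additive.toMul z).1 a = 1}
      one_mem' := ⟨∅, countable_empty, fun _ _ => map_one _⟩
      mul_mem' := by
        rintro a a' ⟨C, hC, h⟩ ⟨C', hC', h'⟩
        refine ⟨C ∪ C', hC.union hC', fun z hz => ?_⟩
        rw [map_mul, h z (hanti subset_union_left hz), h' z (hanti subset_union_right hz),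
          mul_one]
      inv_mem' := by
        rintro a ⟨C, hC, h⟩
        exact ⟨C, hC, fun z hz => by rw [map_inv, h z hz, inv_one]⟩ }
  have hSigc : IsClosed (Sig : Set N) := by
    refine isClosed_of_closure_subset fun a ha => ?_
    obtain ⟨B, hB, hBc, haB⟩ := hT.subtype (N : Set G) _ a ha
    have hB' : ∀ x ∈ B, ∃ C : Set (Additive (chars N)), C.Countable ∧
        ∀ z ∈ S C, (Additive.toMul z).1 x = 1 := fun x hx => hB hx
    choose! C hC hCz using hB'
    refine ⟨⋃ x ∈ B, C x, hBc.biUnion fun x hx => hC x hx, fun z hz => ?_⟩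
    have hcl : IsClosed {a : N | (Additive.toMul z).1 a = 1} :=
      isClosed_eq (Additive.toMul z).2 continuous_const
    refine closure_minimal (fun x hx => ?_) hcl haB
    exact hCz x hx z (hanti (subset_biUnion_of_mem (u := C) hx) hz)
  have hall : ∀ a : N, a ∈ Sig := by
    intro a
    by_contra ha
    obtain ⟨χ, hχc, hχS, hχa⟩ := exists_char_sep hcN hNp Sig hSigc a ha
    have h0 := hinter (Additive.ofMul ⟨χ, hχc⟩) fun C hC =>
      mem_submodule hG N hN hNp (S C) (hS C) _ fun x hx => hχS x ⟨C, hC, hx⟩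
    have h1 : χ = 1 := congrArg (fun z : Additive (chars N) => (Additive.toMul z).1) h0
    exact hχa (by rw [h1]; rfl)
  refine hy₀ (mem_submodule hG N hN hNp M hM y₀ fun a ha => ?_)
  obtain ⟨C, hC, hCa⟩ := hall a
  obtain ⟨m, hm, z, hz, hmz⟩ := Submodule.mem_sup.mp (hsup C hC)
  rw [← hmz]
  show (Additive.toMul m).1 a * (Additive.toMul z).1 a = 1
  rw [ha m hm, hCa z hz, mul_one]

/-- The lifting step: first countability passes from the quotient by a closed abelian normal
subgroup to the group when the centraliser of the subgroup has precompact quotient. -/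
theorem countablyGenerated_lift [T2Space G] (hG : OMP G) (hL : LocPre G)
    (hT : HasCountableTightness G) (A C : Subgroup G) [A.Normal] [C.Normal]
    (hA : IsClosed (A : Set G)) (hAC : A ≤ C) (hcomm : ∀ c ∈ C, ∀ a ∈ A, c * a = a * c)
    (hP : IsPrecompactGroup (G ⧸ C)) [(𝓝 (1 : G ⧸ A)).IsCountablyGenerated] :
    (𝓝 (1 : G)).IsCountablyGenerated := by
  obtain ⟨U, hU, hUt⟩ := id hL
  obtain ⟨N, _, hN, hNA, hNU, _⟩ := exists_kernel hG A C hA hcomm hP hU
  have hNp : IsPrecompactGroup N := hUt.precompact N hNU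
  have hcN : ∀ a b : N, a * b = b * a := fun a b =>
    Subtype.ext (hcomm a (hAC (hNA a.2)) b (hNA b.2))
  have : (𝓝 (1 : G ⧸ C)).IsCountablyGenerated := by
    have e : 𝓝 (1 : G ⧸ C) =
        map (QuotientGroup.map A C (MonoidHom.id G) hAC) (𝓝 (1 : G ⧸ A)) := by
      rw [← QuotientGroup.mk_one, ← QuotientGroup.mk_one, QuotientGroup.nhds_eq,
        QuotientGroup.nhds_eq, map_map]
      rfl
    rw [e]
    infer_instance
  have := countable_chars hG hT N C hN (hNA.trans hAC) (fun c hc a ha => hcomm c hc a (hNA ha))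
    hNp hP
  have : (𝓝 (1 : N)).IsCountablyGenerated := by
    rw [nhds_eq_weak hG N hN (exists_char_of_comm hcN (hL.sub N))
      fun ψ hψ => nhds_fix N hNp ψ hψ]
    infer_instance
  exact three_space N

omit [IsTopologicalGroup G] in
theorem precompact_map {H : Type u} [Group H] [TopologicalSpace H] (f : G →* H)
    (hf : Continuous f) (hs : Function.Surjective f) (C : Subgroup G) (D : Subgroup H) [C.Normal]
    [D.Normal] (h : C ≤ D.comap f) (hP : IsPrecompactGroup (G ⧸ C)) :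
    IsPrecompactGroup (H ⧸ D) :=
  hP.of_surjective (QuotientGroup.map C D f h)
    ((QuotientGroup.isQuotientMap_mk C).continuous_iff.mpr (QuotientGroup.continuous_mk.comp hf))
    fun x => by
      obtain ⟨y, rfl⟩ := QuotientGroup.mk_surjective x
      obtain ⟨g, rfl⟩ := hs y
      exact ⟨g, rfl⟩

theorem countablyGenerated_of_lowerCentralSeries (n : ℕ) :
    ∀ (G : Type u) [Group G] [TopologicalSpace G] [IsTopologicalGroup G] [T2Space G],
      OMP G → LocPre G → HasCountableTightness G → Group.IsSolvable G →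
      ∀ (B E : Subgroup G) [B.Normal] [E.Normal], E ≤ B.topologicalClosure →
      IsPrecompactGroup (G ⧸ E) → B.lowerCentralSeries n = ⊥ →
      (𝓝 (1 : G)).IsCountablyGenerated := by
  induction n with
  | zero =>
    intro G _ _ _ _ hG _ hT hs B E _ _ hE hP h
    obtain rfl : B = ⊥ := h
    have h1 : E ≤ ⊥ := hE.trans (Subgroup.topologicalClosure_minimal _ le_rfl
      (by rw [Subgroup.coe_bot]; exact isClosed_singleton))
    obtain ⟨k, hk⟩ := hs.solvable
    refine countablyGenerated_of_derivedSeries k G hG (hP.of_surjective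
      (QuotientGroup.lift E (MonoidHom.id G) fun x hx => Subgroup.mem_bot.1 (h1 hx))
      ((QuotientGroup.isQuotientMap_mk E).continuous_iff.mpr continuous_id)
      fun x => ⟨x, rfl⟩) hT hk
  | succ n ih =>
    intro G _ _ _ _ hG hL hT hs B E _ _ hE hP h
    have : (B.lowerCentralSeries n).Normal := by
      clear h ih
      induction n with
      | zero => exact ‹B.Normal›
      | succ n ih => exact Subgroup.commutator_normal _ _
    let A : Subgroup G := (B.lowerCentralSeries n).topologicalClosure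
    have : A.Normal := Subgroup.is_normal_topologicalClosure _
    have hA : IsClosed (A : Set G) := Subgroup.isClosed_topologicalClosure _
    have h1 : A ≤ Subgroup.centralizer (B : Set G) :=
      Subgroup.topologicalClosure_minimal _
        (Subgroup.commutator_eq_bot_iff_le_centralizer.1 h) (Set.isClosed_centralizer _)
    have h2 : B.topologicalClosure ≤ Subgroup.centralizer (A : Set G) :=
      Subgroup.topologicalClosure_minimal _ (Subgroup.le_centralizer_iff.1 h1)
        (Set.isClosed_centralizer _)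
    have hπ : Function.Surjective (QuotientGroup.mk' A) := QuotientGroup.mk_surjective
    have := Subgroup.Normal.map ‹B.Normal› _ hπ
    have := Subgroup.Normal.map ‹E.Normal› _ hπ
    have := ih (G ⧸ A) (hG.quotient A) (hL.quot A)
      (hT.of_isOpenMap _ QuotientGroup.continuous_mk QuotientGroup.isOpenMap_coe
        QuotientGroup.mk_surjective) inferInstance (B.map (QuotientGroup.mk' A))
      (E.map (QuotientGroup.mk' A))
      (by
        rintro _ ⟨x, hx, rfl⟩
        exact image_closure_subset_closure_image QuotientGroup.continuous_mk ⟨x, hE hx, rfl⟩)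
      (precompact_map _ QuotientGroup.continuous_mk hπ E _ (Subgroup.le_comap_map _ _) hP)
      (by
        rw [← Subgroup.map_lowerCentralSeries, Subgroup.map_eq_bot_iff, QuotientGroup.ker_mk']
        exact Subgroup.le_topologicalClosure _)
    exact countablyGenerated_lift hG hL hT A (Subgroup.centralizer (A : Set G)) hA
      ((Subgroup.topologicalClosure_mono (B.lowerCentralSeries_le_self n)).trans h2)
      (fun c hc a ha => (hc a ha).symm)
      (precompact_map (MonoidHom.id G) continuous_id Function.surjective_id E _ (hE.trans h2) hP)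

theorem metrizable (G : Type u) [Group G] [TopologicalSpace G] [IsTopologicalGroup G] [T2Space G]
    (hmin : IsTotallyMinimal G) (hL : LocPre G) (B : Subgroup G) [B.Normal]
    (hB : Group.IsNilpotent B) (hnil : Group.IsNilpotent (G ⧸ B))
    (hT : HasCountableTightness G) : TopologicalSpace.MetrizableSpace G := by
  have hG := hmin.omp
  let E : Subgroup G := B.topologicalClosure
  have : E.Normal := Subgroup.is_normal_topologicalClosure _
  have hE : IsClosed (E : Set G) := Subgroup.isClosed_topologicalClosure _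
  have : Group.IsNilpotent (G ⧸ E) := Group.nilpotent_of_surjective
    (QuotientGroup.map B E (MonoidHom.id G) (Subgroup.le_topologicalClosure B)) fun x => by
      obtain ⟨g, rfl⟩ := QuotientGroup.mk_surjective x
      exact ⟨g, rfl⟩
  have hP : IsPrecompactGroup (G ⧸ E) := precompact_of_nilpotent _ (hG.quotient E) (hL.quot E)
  have hs : Group.IsSolvable G := Group.isSolvable_of_ker_le_range B.subtype
    (QuotientGroup.mk' B) (by simp)
  obtain ⟨n, hn⟩ := (Subgroup.isNilpotent_iff_lowerCentralSeries B).1 hB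
  have := countablyGenerated_of_lowerCentralSeries n G hG hL hT hs B E le_rfl hP hn
  let U : UniformSpace G := IsTopologicalGroup.rightUniformSpace G
  have : (uniformity G).IsCountablyGenerated := by
    rw [uniformity_eq_comap_nhds_one']
    infer_instance
  exact UniformSpace.metrizableSpace

end Pool.Agent.Lib.MP_a4feb0_gt.LP
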