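import Pool.Agent.Lib.MP_a4feb0_gt.Main

/-!
Continuous characters separate the points of a locally precompact abelian group.
-/

set_option autoImplicit false

open Filter Topology Set Pointwise

namespace Pool.Agent.Lib.MP_a4feb0_gt.LP

universe u

section general

variable {G : Type*} [Group G] [TopologicalSpace G]

/-- Totally bounded subsets. -/
def TB (U : Set G) : Prop := ∀ V ∈ 𝓝 (1 : G), ∃ F : Set G, F.Finite ∧ U ⊆ F * V

/-- Locally precompact groups. -/
def LocPre (G : Type*) [Group G] [TopologicalSpace G] : Prop := ∃ U ∈ 𝓝 (1 : G), TB U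

theorem TB.mono {U U' : Set G} (h : TB U) (hs : U' ⊆ U) : TB U' := fun V hV => by
  obtain ⟨F, hF, h1⟩ := h V hV
  exact ⟨F, hF, hs.trans h1⟩

theorem tb_finite {U : Set G} (h : U.Finite) : TB U := fun _ hV =>
  ⟨U, h, fun x hx => ⟨x, hx, 1, mem_of_mem_nhds hV, mul_one x⟩⟩

theorem TB.image {H : Type*} [Group H] [TopologicalSpace H] {U : Set G} (h : TB U) (f : G →* H)
    (hf : Continuous f) : TB (f '' U) := by
  intro V hV
  have h1 : f ⁻¹' V ∈ 𝓝 (1 : G) := hf.continuousAt.preimage_mem_nhds (by rwa [map_one])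
  obtain ⟨F, hF, hFU⟩ := h _ h1
  refine ⟨f '' F, hF.image f, ?_⟩
  rintro _ ⟨x, hx, rfl⟩
  obtain ⟨a, ha, b, hb, rfl⟩ := hFU hx
  exact ⟨f a, mem_image_of_mem f ha, f b, hb, (map_mul f a b).symm⟩

variable [IsTopologicalGroup G]

theorem TB.sub {U : Set G} (h : TB U) (A : Subgroup G) : TB (Subtype.val ⁻¹' U : Set A) := by
  classical
  intro T hT
  rw [nhds_subtype_eq_comap, mem_comap] at hT
  obtain ⟨V, hV, hVU⟩ := hT
  obtain ⟨W, hW, hWi, hW3⟩ := exists_symm3 (G := G) hV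
  obtain ⟨F, hF, hFW⟩ := h W hW
  let p : G → A := fun f => if h : ∃ a : A, f⁻¹ * a ∈ W then h.choose else 1
  refine ⟨p '' F, hF.image p, fun a ha => ?_⟩
  obtain ⟨f, hf, w, hw, hfw⟩ := hFW ha
  have hex : ∃ a : A, f⁻¹ * a ∈ W := ⟨a, by rw [← hfw]; simpa using hw⟩
  have hp : f⁻¹ * (p f : G) ∈ W := by
    simp only [p, dif_pos hex]
    exact hex.choose_spec
  refine ⟨p f, mem_image_of_mem p hf, (p f)⁻¹ * a, hVU ?_, by simp⟩
  have := hW3 _ (hWi _ hp) _ hw 1 (mem_of_mem_nhds hW)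
  show (((p f)⁻¹ * a : A) : G) ∈ V
  rw [Subgroup.coe_mul, Subgroup.coe_inv, ← hfw]
  simpa [mul_assoc] using this

theorem TB.precompact {U : Set G} (h : TB U) (A : Subgroup G) (hA : (A : Set G) ⊆ U) :
    IsPrecompactGroup A := fun V hV => by
  obtain ⟨F, hF, h1⟩ := h.sub A V hV
  exact ⟨F, hF, eq_univ_of_forall fun a => h1 (hA a.2)⟩

theorem LocPre.sub (h : LocPre G) (A : Subgroup G) : LocPre A := by
  obtain ⟨U, hU, h1⟩ := h
  exact ⟨_, continuous_subtype_val.continuousAt.preimage_mem_nhds hU, h1.sub A⟩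

theorem LocPre.quot (h : LocPre G) (A : Subgroup G) [A.Normal] : LocPre (G ⧸ A) := by
  obtain ⟨U, hU, h1⟩ := h
  exact ⟨_, QuotientGroup.isOpenMap_coe.image_mem_nhds hU,
    h1.image (QuotientGroup.mk' A) QuotientGroup.continuous_mk⟩

end general

section comm

variable {P : Type*} [CommGroup P] [TopologicalSpace P] [IsTopologicalGroup P]

theorem TB.mul {U U' : Set P} (h : TB U) (h' : TB U') : TB (U * U') := by
  intro V hV
  obtain ⟨W, hW, hWV⟩ := exists_nhds_one_split hV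
  obtain ⟨F, hF, h1⟩ := h W hW
  obtain ⟨F', hF', h2⟩ := h' W hW
  refine ⟨F * F', hF.mul hF', ?_⟩
  rintro _ ⟨x, hx, y, hy, rfl⟩
  obtain ⟨a, ha, b, hb, rfl⟩ := h1 hx
  obtain ⟨c, hc, d, hd, rfl⟩ := h2 hy
  exact ⟨a * c, mul_mem_mul ha hc, b * d, hWV _ hb _ hd, mul_mul_mul_comm a c b d⟩

theorem large_power [T2Space P] {f : P} (h : ∀ W ∈ 𝓝 (1 : P), ∃ n : ℤ, f ^ n ∈ W ∧ n ≠ 0)
    (N : ℤ) {W : Set P} (hW : W ∈ 𝓝 (1 : P)) : ∃ n : ℤ, N < n ∧ f ^ (-n) ∈ W := by
  by_cases h0 : ∃ n : ℤ, n ≠ 0 ∧ f ^ n = 1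
  · obtain ⟨n, hn, h1⟩ := h0
    refine ⟨n * n * (|N| + 1), ?_, ?_⟩
    · have h2 : 0 < n * n := mul_self_pos.2 hn
      nlinarith [le_abs_self N, abs_nonneg N]
    · rw [mul_assoc, zpow_neg, zpow_mul, h1, one_zpow, inv_one]
      exact mem_of_mem_nhds hW
  · have hT : ((fun k : ℤ => f ^ k) '' (Icc (-|N|) |N| \ {0})).Finite :=
      ((finite_Icc _ _).subset sdiff_subset).image _
    have h1 : ((fun k : ℤ => f ^ k) '' (Icc (-|N|) |N| \ {0}))ᶜ ∈ 𝓝 (1 : P) := by
      refine hT.isClosed.isOpen_compl.mem_nhds ?_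
      rintro ⟨k, hk, h2⟩
      exact h0 ⟨k, hk.2, h2⟩
    obtain ⟨n, ⟨⟨h2, h3⟩, h4⟩, h5⟩ := h _ (inter_mem (inter_mem hW (inv_mem_nhds_one P hW)) h1)
    have h6 : n ∉ Icc (-|N|) |N| := fun h6 => h4 ⟨n, ⟨h6, h5⟩, rfl⟩
    rw [mem_Icc, not_and_or, not_le, not_le] at h6
    have h7 := le_abs_self N
    rcases h6 with h6 | h6
    · exact ⟨-n, by omega, by rwa [neg_neg]⟩
    · exact ⟨n, by omega, by rw [zpow_neg]; exact h3⟩

/-- A cyclic subgroup of a locally precompact group is totally bounded or discrete. -/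
theorem weil [T2Space P] (hP : LocPre P) (f : P) :
    TB (Subgroup.zpowers f : Set P) ∨ ∃ W ∈ 𝓝 (1 : P), ∀ n : ℤ, f ^ n ∈ W → n = 0 := by
  classical
  refine or_iff_not_imp_right.2 fun hc => ?_
  have h : ∀ W ∈ 𝓝 (1 : P), ∃ n : ℤ, f ^ n ∈ W ∧ n ≠ 0 := fun W hW => by
    by_contra h1
    exact hc ⟨W, hW, fun n hn => by_contra fun h2 => h1 ⟨n, hn, h2⟩⟩
  have hB : ∀ (k : ℤ), ∀ W ∈ 𝓝 (1 : P), ∃ n : ℤ, 0 < n ∧ f ^ (k - n) ∈ W := fun k W hW => by
    obtain ⟨n, h1, h2⟩ := large_power h (-k) hW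
    exact ⟨k + n, by omega, by rwa [show k - (k + n) = -n by ring]⟩
  obtain ⟨U, hU, hUt⟩ := hP
  obtain ⟨V, hV, hVi, hV3⟩ := exists_symm3 (G := P) hU
  have hVt : TB V := hUt.mono fun v hv => by
    simpa using hV3 v hv 1 (mem_of_mem_nhds hV) 1 (mem_of_mem_nhds hV)
  obtain ⟨W, hW, hWi, hW3⟩ := exists_symm3 (G := P) hV
  obtain ⟨F, hF, hFW⟩ := hVt W hW
  have h1 : ∀ a : P, ∃ n : ℤ, 0 < n ∧ ∀ j : ℤ, a⁻¹ * f ^ j ∈ W → f ^ (j - n) ∈ V := fun a => by
    by_cases h2 : ∃ k : ℤ, a⁻¹ * f ^ k ∈ W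
    · obtain ⟨k, hk⟩ := h2
      obtain ⟨n, h3, h4⟩ := hB k W hW
      refine ⟨n, h3, fun j hj => ?_⟩
      have h5 := hW3 _ hj _ (hWi _ hk) _ h4
      have e : a⁻¹ * f ^ j * (a⁻¹ * f ^ k)⁻¹ * f ^ (k - n) = f ^ (j - n) := by
        rw [mul_comm a⁻¹ (f ^ j), mul_inv_rev, inv_inv, mul_comm (f ^ k)⁻¹ a]
        group
      rwa [e] at h5
    · exact ⟨1, one_pos, fun j hj => absurd ⟨j, hj⟩ h2⟩
  choose n hn0 hn using h1
  obtain ⟨N, hN⟩ := (hF.image n).bddAbove
  have hC : ∀ j : ℤ, f ^ j ∈ V → ∃ m : ℤ, 0 < m ∧ m ≤ N ∧ f ^ (j - m) ∈ V := fun j hj => by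
    obtain ⟨a, ha, w, hw, e⟩ := hFW hj
    refine ⟨n a, hn0 a, hN (mem_image_of_mem n ha), hn a j ?_⟩
    rw [← e]
    simpa using hw
  refine ((tb_finite ((finite_Icc (0 : ℤ) N).image fun k : ℤ => f ^ k)).mul hVt).mono ?_
  rintro _ ⟨k, rfl⟩
  obtain ⟨r, ⟨h2, h3⟩, h4⟩ := Int.exists_least_of_bdd
    (P := fun r : ℤ => 0 < r ∧ f ^ (k - r) ∈ V) ⟨0, fun z hz => hz.1.le⟩ (hB k V hV)
  have h5 : f ^ (r - k) ∈ V := by
    have := hVi _ h3
    rwa [← zpow_neg, neg_sub] at this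
  obtain ⟨m, h6, h7, h8⟩ := hC _ h5
  have h9 : f ^ (k - (r - m)) ∈ V := by
    have := hVi _ h8
    rwa [← zpow_neg, show -(r - k - m) = k - (r - m) by ring] at this
  have h10 : r ≤ N := by
    by_contra h11
    have := h4 (r - m) ⟨by omega, h9⟩
    omega
  refine ⟨f ^ r, ⟨r, ⟨h2.le, h10⟩, rfl⟩, f ^ (k - r), h3, ?_⟩
  show f ^ r * f ^ (k - r) = f ^ k
  rw [← zpow_add, add_sub_cancel]

end comm

/-- Characters of a subgroup extend to the group. -/
theorem exists_extend {P : Type*} [CommGroup P] (H : Subgroup P) (χ : H →* Circle) :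
    ∃ ψ : P →* Circle, ∀ h : H, ψ h = χ h := by
  have hd : DivisibleBy (Additive Circle) ℤ := divisibleByOfSMulRightSurj _ _ fun {n} hn z => by
    refine ⟨Additive.ofMul (Circle.exp (Complex.arg (Additive.toMul z : Circle) / n)), ?_⟩
    have h1 : (n : ℝ) ≠ 0 := by exact_mod_cast hn
    show Additive.ofMul (Circle.exp (Complex.arg (Additive.toMul z : Circle) / n) ^ n) = z
    rw [← Circle.exp_intCast_mul, mul_div_cancel₀ _ h1, Circle.exp_arg]
    rfl
  obtain ⟨g, hg⟩ := (Module.Baer.of_divisible (Additive Circle)).extension_property_addMonoidHom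
    (MonoidHom.toAdditive H.subtype) Subtype.val_injective (MonoidHom.toAdditive χ)
  exact ⟨MonoidHom.toAdditive.symm g, fun h => DFunLike.congr_fun hg (Additive.ofMul h)⟩

theorem mem_closure_cons {P : Type*} [CommGroup P] {f c : P} {L : List P}
    (h : c ∈ Subgroup.closure {x | x ∈ f :: L}) :
    ∃ k : ℤ, ∃ c' ∈ Subgroup.closure {x | x ∈ L}, c = f ^ k * c' := by
  have e : {x | x ∈ f :: L} = {f} ∪ {x | x ∈ L} := by
    ext x
    simp
  rw [e, Subgroup.closure_union, ← Subgroup.zpowers_eq_closure, Subgroup.mem_sup] at h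
  obtain ⟨_, ⟨k, rfl⟩, c', h1, rfl⟩ := h
  exact ⟨k, c', h1, rfl⟩

theorem sep_aux (n : ℕ) : ∀ (P : Type u) [CommGroup P] [TopologicalSpace P]
    [IsTopologicalGroup P] [T2Space P], LocPre P → ∀ (L : List P) (U : Set P) (H : Subgroup P),
      L.length = n → TB U → IsOpen (H : Set P) →
      (H : Set P) ⊆ (Subgroup.closure {x | x ∈ L} : Set P) * U →
      ∀ x ∈ H, x ≠ 1 → ∃ χ : P →* Circle, Continuous χ ∧ χ x ≠ 1 := by
  induction n with
  | zero =>
    intro P _ _ _ _ _ L U H hL hU hH hs x hx h1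
    obtain rfl := List.length_eq_zero_iff.1 hL
    have h2 : (H : Set P) ⊆ U := fun y hy => by
      obtain ⟨c, hc, u, hu, rfl⟩ := hs hy
      have h3 : c = 1 := by simpa using hc
      simpa [h3] using hu
    obtain ⟨χ, hχ, h3⟩ := exists_char_precompact (hU.precompact H h2) ⟨x, hx⟩
      fun h => h1 (congrArg Subtype.val h)
    obtain ⟨ψ, hψ⟩ := exists_extend H χ
    refine ⟨ψ, continuous_of_continuousAt_one ψ ?_, fun h => h3 ((hψ ⟨x, hx⟩).symm.trans h)⟩
    have h4 : ContinuousOn ψ H := by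
      rw [continuousOn_iff_continuous_domRestrict]
      exact hχ.congr fun h => (hψ h).symm
    exact h4.continuousAt (hH.mem_nhds H.one_mem)
  | succ n ih =>
    intro P _ _ _ _ hP L U H hL hU hH hs x hx h1
    obtain ⟨f, L, rfl⟩ := List.exists_cons_of_length_eq_add_one hL
    have hL' : L.length = n := by simpa using hL
    rcases weil hP f with hf | ⟨W, hW, hf⟩
    · refine ih P hP L _ H hL' (hf.mul hU) hH (fun y hy => ?_) x hx h1
      obtain ⟨c, hc, u, hu, rfl⟩ := hs hy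
      obtain ⟨k, c', h2, rfl⟩ := mem_closure_cons hc
      exact ⟨c', h2, f ^ k * u, mul_mem_mul ⟨k, rfl⟩ hu, by
        show c' * (f ^ k * u) = f ^ k * c' * u
        rw [mul_left_comm, mul_assoc]⟩
    · obtain ⟨m, hm, hxm⟩ : ∃ m : ℤ, 0 < m ∧ x ∉ Subgroup.zpowers (f ^ m) := by
        by_cases h2 : ∃ k : ℤ, f ^ k = x
        · obtain ⟨k, rfl⟩ := h2
          refine ⟨|k| + 1, by positivity, ?_⟩
          rintro ⟨j, hj⟩
          have h3 : f ^ ((|k| + 1) * j - k) = 1 := by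
            rw [zpow_sub, zpow_mul]
            exact mul_inv_eq_one.2 hj
          have h4 := hf _ (h3 ▸ mem_of_mem_nhds hW)
          have h5 : k = (|k| + 1) * j := by omega
          have h6 : j = 0 := by
            by_contra h6
            have h7 : |k| = (|k| + 1) * |j| := by
              conv_lhs => rw [h5, abs_mul, abs_of_nonneg (by positivity : 0 ≤ |k| + 1)]
            nlinarith [abs_nonneg k, Int.one_le_abs h6]
          rw [h6, mul_zero] at h5
          exact h1 (by rw [h5, zpow_zero])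
        · exact ⟨1, one_pos, fun ⟨j, hj⟩ => h2 ⟨j, by simpa using hj⟩⟩
      set D := Subgroup.zpowers (f ^ m) with hD
      have hdisc : DiscreteTopology D := by
        refine discreteTopology_of_isOpen_singleton_one (isOpen_iff_mem_nhds.2 ?_)
        rintro _ rfl
        refine mem_of_superset (continuous_subtype_val.continuousAt.preimage_mem_nhds hW) ?_
        rintro ⟨_, j, rfl⟩ hj
        have h2 : f ^ (m * j) ∈ W := by
          rw [zpow_mul]
          exact hj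
        refine Subtype.ext ?_
        show (f ^ m) ^ j = 1
        rw [← zpow_mul, hf _ h2, zpow_zero]
      have hcl : IsClosed (D : Set P) := Subgroup.isClosed_of_discrete
      let π : P →* P ⧸ D := QuotientGroup.mk' D
      have hπ : Continuous π := QuotientGroup.continuous_mk
      obtain ⟨χ, hχ, h2⟩ := ih (P ⧸ D) (hP.quot D) (L.map π) _ (H.map π) (by simpa using hL')
        (((tb_finite ((finite_Icc (0 : ℤ) m).image fun k : ℤ => f ^ k)).mul hU).image π hπ)
        (QuotientGroup.isOpenMap_coe _ hH) (by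
          rintro _ ⟨y, hy, rfl⟩
          obtain ⟨c, hc, u, hu, rfl⟩ := hs hy
          obtain ⟨k, c', h2, rfl⟩ := mem_closure_cons hc
          have h3 : Subgroup.closure {x | x ∈ L} ≤
              (Subgroup.closure {x | x ∈ L.map π}).comap π :=
            (Subgroup.closure_le _).2 fun z hz => Subgroup.subset_closure (List.mem_map_of_mem hz)
          refine ⟨π c', h3 h2, π (f ^ (k % m) * u), mem_image_of_mem π (mul_mem_mul
            ⟨k % m, ⟨Int.emod_nonneg k hm.ne', (Int.emod_lt_of_pos k hm).le⟩, rfl⟩ hu), ?_⟩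
          have h4 : π ((f ^ m) ^ (k / m)) = 1 := (QuotientGroup.eq_one_iff _).2 ⟨k / m, rfl⟩
          have h5 : f ^ k = (f ^ m) ^ (k / m) * f ^ (k % m) := by
            rw [← zpow_mul, ← zpow_add, Int.mul_ediv_add_emod]
          show π c' * π (f ^ (k % m) * u) = π (f ^ k * c' * u)
          rw [h5, map_mul, map_mul, map_mul, map_mul, h4, one_mul, mul_left_comm, mul_assoc])
        (π x) ⟨x, hx, rfl⟩ fun h => hxm ((QuotientGroup.eq_one_iff x).1 h)
      exact ⟨χ.comp π, hχ.comp hπ, h2⟩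

/-- Continuous characters separate the points of a locally precompact abelian group. -/
theorem exists_char_locPre {P : Type u} [CommGroup P] [TopologicalSpace P] [IsTopologicalGroup P]
    [T2Space P] (hP : LocPre P) (x : P) (hx : x ≠ 1) :
    ∃ χ : P →* Circle, Continuous χ ∧ χ x ≠ 1 := by
  obtain ⟨U, hU, hUt⟩ := id hP
  obtain ⟨V, hV, hVi, hV3⟩ := exists_symm3 (G := P) hU
  have hVt : TB V := hUt.mono fun v hv => by
    simpa using hV3 v hv 1 (mem_of_mem_nhds hV) 1 (mem_of_mem_nhds hV)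
  obtain ⟨F, hF, hFV⟩ := (hVt.mul hVt) V hV
  let L : List P := x :: hF.toFinset.toList
  let C : Subgroup P := Subgroup.closure {y | y ∈ L}
  let H : Subgroup P :=
    { carrier := (C : Set P) * V
      one_mem' := ⟨1, C.one_mem, 1, mem_of_mem_nhds hV, one_mul 1⟩
      mul_mem' := by
        rintro _ _ ⟨a, ha, v, hv, rfl⟩ ⟨b, hb, w, hw, rfl⟩
        obtain ⟨c, hc, z, hz, e⟩ := hFV (mul_mem_mul hv hw)
        have hcC : c ∈ C := Subgroup.subset_closure (by simp [L, hc])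
        refine ⟨a * b * c, C.mul_mem (C.mul_mem ha hb) hcC, z, hz, ?_⟩
        show a * b * c * z = a * v * (b * w)
        have e' : c * z = v * w := e
        rw [mul_assoc, e', mul_mul_mul_comm]
      inv_mem' := by
        rintro _ ⟨a, ha, v, hv, rfl⟩
        exact ⟨a⁻¹, C.inv_mem ha, v⁻¹, hVi v hv, (mul_inv a v).symm⟩ }
  refine sep_aux L.length P hP L V H rfl hVt (H.isOpen_of_mem_nhds (g := 1) ?_) (fun _ h => h) x
    ⟨x, Subgroup.subset_closure (by simp [L]), 1, mem_of_mem_nhds hV, mul_one x⟩ hx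
  exact mem_of_superset hV fun v hv => ⟨1, C.one_mem, v, hv, one_mul v⟩

end Pool.Agent.Lib.MP_a4feb0_gt.LP
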