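import Pool.Agent.Lib.MP_a4feb0_gt.LP.Sep

/-!
Coarser group topologies on groups with the open mapping property, without precompactness.
-/

set_option autoImplicit false

open Filter Topology Set Pointwise

namespace Pool.Agent.Lib.MP_a4feb0_gt.LP

universe u

variable {G : Type u} [Group G] [TopologicalSpace G] [IsTopologicalGroup G]

theorem coarse (hG : OMP G) (𝒱 : Filter G) (h1 : ∀ V ∈ 𝒱, (1 : G) ∈ V)
    (hmul : ∀ V ∈ 𝒱, ∃ V' ∈ 𝒱, ∀ a ∈ V', ∀ b ∈ V', a * b ∈ V)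
    (hinv : ∀ V ∈ 𝒱, ∃ V' ∈ 𝒱, ∀ a ∈ V', a⁻¹ ∈ V)
    (hconj : ∀ g : G, ∀ V ∈ 𝒱, ∃ V' ∈ 𝒱, ∀ a ∈ V', g * a * g⁻¹ ∈ V)
    (hjoint : ∀ V ∈ 𝒱, ∃ U ∈ 𝓝 (1 : G), ∃ V' ∈ 𝒱, ∀ u ∈ U, ∀ v ∈ V', u * v * u⁻¹ ∈ V)
    (U : Set G) (hU : U ∈ 𝓝 (1 : G)) :
    ∃ V ∈ 𝒱, ∀ v ∈ V, ∃ u ∈ U, ∀ U' ∈ 𝓝 (1 : G), ∀ V' ∈ 𝒱, u⁻¹ * v ∈ U' * V' := by
  let B : GroupFilterBasis G :=
    { sets := {T | ∃ U ∈ 𝓝 (1 : G), ∃ V ∈ 𝒱, T = U * V}
      nonempty := ⟨_, univ, univ_mem, univ, univ_mem, rfl⟩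
      inter_sets := by
        rintro _ _ ⟨U₁, hU₁, V₁, hV₁, rfl⟩ ⟨U₂, hU₂, V₂, hV₂, rfl⟩
        exact ⟨_, ⟨_, inter_mem hU₁ hU₂, _, inter_mem hV₁ hV₂, rfl⟩, subset_inter
          (mul_subset_mul inter_subset_left inter_subset_left)
          (mul_subset_mul inter_subset_right inter_subset_right)⟩
      one' := by
        rintro _ ⟨U, hU, V, hV, rfl⟩
        exact ⟨1, mem_of_mem_nhds hU, 1, h1 V hV, one_mul 1⟩
      mul' := by
        rintro _ ⟨U, hU, V, hV, rfl⟩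
        obtain ⟨W, hW, hWU⟩ := exists_nhds_one_split hU
        obtain ⟨V', hV', hVV⟩ := hmul V hV
        obtain ⟨W', hW', V'', hV'', hj⟩ := hjoint V' hV'
        refine ⟨_, ⟨_, inter_mem hW (inv_mem_nhds_one G hW'), _, inter_mem hV' hV'', rfl⟩, ?_⟩
        rintro _ ⟨_, ⟨u₁, hu₁, v₁, hv₁, rfl⟩, _, ⟨u₂, hu₂, v₂, hv₂, rfl⟩, rfl⟩
        refine ⟨u₁ * u₂, hWU _ hu₁.1 _ hu₂.1, u₂⁻¹ * v₁ * u₂⁻¹⁻¹ * v₂,
          hVV _ (hj _ hu₂.2 _ hv₁.2) _ hv₂.1, ?_⟩
        simp [mul_assoc]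
      inv' := by
        rintro _ ⟨U, hU, V, hV, rfl⟩
        obtain ⟨W, hW, V', hV', hj⟩ := hjoint V hV
        obtain ⟨V'', hV'', hVV⟩ := hinv V' hV'
        refine ⟨_, ⟨_, inter_mem hW (inv_mem_nhds_one G hU), _, hV'', rfl⟩, ?_⟩
        rintro _ ⟨u, hu, v, hv, rfl⟩
        refine ⟨u⁻¹, hu.2, u * v⁻¹ * u⁻¹, hj _ hu.1 _ (hVV _ hv), ?_⟩
        simp [mul_assoc]
      conj' := by
        rintro g _ ⟨U, hU, V, hV, rfl⟩
        have hc : Continuous fun u : G => g * u * g⁻¹ := by fun_prop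
        have hW : (fun u : G => g * u * g⁻¹) ⁻¹' U ∈ 𝓝 (1 : G) :=
          hc.continuousAt.preimage_mem_nhds (by simpa using hU)
        obtain ⟨V', hV', hVV⟩ := hconj g V hV
        refine ⟨_, ⟨_, hW, _, hV', rfl⟩, ?_⟩
        rintro _ ⟨u, hu, v, hv, rfl⟩
        refine ⟨g * u * g⁻¹, hu, g * v * g⁻¹, hVV _ hv, ?_⟩
        simp [mul_assoc] }
  have hbasis : (𝓝 (1 : Syn B)).HasBasis (fun T => T ∈ B) id := B.nhds_one_hasBasis
  let ι : G →* Syn B := MonoidHom.id G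
  have hι : Continuous ι := by
    refine continuous_of_continuousAt_one ι ?_
    rw [ContinuousAt, map_one, hbasis.tendsto_right_iff]
    rintro _ ⟨U, hU, V, hV, rfl⟩
    filter_upwards [hU] with u hu
    exact ⟨u, hu, 1, h1 V hV, mul_one u⟩
  let f : G →* SeparationQuotient (Syn B) := SeparationQuotient.mkMonoidHom.comp ι
  have hf : IsOpenMap f := hG _ f (SeparationQuotient.continuous_mk.comp hι)
    (SeparationQuotient.surjective_mk (X := Syn B))
  have h2 : f '' U ∈ 𝓝 (f 1) := hf.image_mem_nhds hU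
  have h3 : SeparationQuotient.mk ⁻¹' (f '' U) ∈ 𝓝 (1 : Syn B) :=
    SeparationQuotient.continuous_mk.continuousAt.preimage_mem_nhds h2
  obtain ⟨_, ⟨U₀, hU₀, V₀, hV₀, rfl⟩, hsub⟩ := hbasis.mem_iff.mp h3
  refine ⟨V₀, hV₀, fun v hv => ?_⟩
  obtain ⟨u, hu, huv⟩ := hsub ⟨1, mem_of_mem_nhds hU₀, v, hv, one_mul v⟩
  refine ⟨u, hu, fun U' hU' V' hV' => ?_⟩
  have h4 : f (u⁻¹ * v) = f 1 := by
    have : f v = f u := huv.symm
    rw [map_mul, map_inv, this, inv_mul_cancel, map_one]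
  have h5 : Inseparable (ι (u⁻¹ * v)) (1 : Syn B) := SeparationQuotient.mk_eq_mk.mp h4
  have h6 : (U' * V' : Set G) ∈ 𝓝 (1 : Syn B) := hbasis.mem_of_mem ⟨U', hU', V', hV', rfl⟩
  exact mem_of_mem_nhds (x := ι (u⁻¹ * v)) (h5.nhds_eq.le h6)

theorem weak (hG : OMP G) (A : Subgroup G) [A.Normal]
    (hA : IsClosed (A : Set G)) (M : Subgroup (A →* Circle)) (hM : ∀ ψ ∈ M, Continuous ψ)
    (hinv : ∀ g : G, ∀ ψ ∈ M, ψ.comp (MulAut.conjNormal g : A ≃* A).toMonoidHom ∈ M)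
    (hst : ∀ ψ ∈ M, ∃ U ∈ 𝓝 (1 : G), ∀ u ∈ U, ∀ a : A, ψ (MulAut.conjNormal u a) = ψ a)
    (U : Set G) (hU : U ∈ 𝓝 (1 : G)) :
    ∃ V ∈ comap (fun (a : A) (ψ : M) => ψ.1 a) (𝓝 1), ∀ v ∈ V, ∃ u : A, (u : G) ∈ U ∧
      ∀ ψ ∈ M, ψ (u⁻¹ * v) = 1 := by
  set W : Filter A := comap (fun (a : A) (ψ : M) => ψ.1 a) (𝓝 1) with hW
  have hWt : ∀ ψ : M, Tendsto ψ.1 W (𝓝 1) := fun ψ =>
    tendsto_pi_nhds.mp (tendsto_comap (f := fun (a : A) (ψ : M) => ψ.1 a) (x := 𝓝 1)) ψ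
  have hWi : ∀ {β : Type u} (F : β → A) (l : Filter β),
      (∀ ψ : M, Tendsto (fun b => ψ.1 (F b)) l (𝓝 1)) → Tendsto F l W := by
    intro β F l h
    rw [hW, tendsto_comap_iff, tendsto_pi_nhds]
    exact h
  obtain ⟨V, hV, hVU⟩ := coarse hG (map Subtype.val W) (by
      intro V hV
      have h : Tendsto (fun _ : A => (1 : A)) (pure 1) W :=
        hWi _ _ fun ψ => by simp
      exact h hV)
    (by
      intro V hV
      have h : Tendsto (fun p : A × A => p.1 * p.2) (W ×ˢ W) W := hWi _ _ fun ψ => by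
        simp only [map_mul]
        simpa using ((hWt ψ).comp tendsto_fst).mul ((hWt ψ).comp tendsto_snd)
      obtain ⟨T, hT, hTV⟩ := mem_prod_self_iff.mp (h hV)
      refine ⟨_, image_mem_map hT, ?_⟩
      rintro _ ⟨a, ha, rfl⟩ _ ⟨b, hb, rfl⟩
      exact hTV (mk_mem_prod ha hb))
    (by
      intro V hV
      have h : Tendsto (fun a : A => a⁻¹) W W := hWi _ _ fun ψ => by
        simp only [map_inv]
        simpa using (hWt ψ).inv
      refine ⟨_, image_mem_map (h hV), ?_⟩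
      rintro _ ⟨a, ha, rfl⟩
      exact ha)
    (by
      intro g V hV
      have h : Tendsto (fun a : A => MulAut.conjNormal g a) W W := hWi _ _ fun ψ =>
        hWt ⟨_, hinv g ψ.1 ψ.2⟩
      refine ⟨_, image_mem_map (h hV), ?_⟩
      rintro _ ⟨a, ha, rfl⟩
      exact ha)
    (by
      intro V hV
      have h : Tendsto (fun p : G × A => MulAut.conjNormal p.1 p.2) (𝓝 1 ×ˢ W) W :=
        hWi _ _ fun ψ => by
          obtain ⟨U', hU', h1⟩ := hst ψ.1 ψ.2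
          refine ((hWt ψ).comp tendsto_snd).congr' ?_
          filter_upwards [tendsto_fst (g := W) hU'] with p hp
          exact (h1 _ hp _).symm
      obtain ⟨T₁, hT₁, T₂, hT₂, hT⟩ := mem_prod_iff.mp (h hV)
      refine ⟨T₁, hT₁, _, image_mem_map hT₂, ?_⟩
      rintro u hu _ ⟨a, ha, rfl⟩
      exact hT (mk_mem_prod hu ha)) U hU
  refine ⟨_, hV, fun v hv => ?_⟩
  obtain ⟨u, hu, hall⟩ := hVU v hv
  have hx : u⁻¹ * v ∈ A := by
    by_contra hx
    have hc : Continuous fun g : G => g⁻¹ * (u⁻¹ * v) := by fun_prop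
    have h1 : (fun g : G => g⁻¹ * (u⁻¹ * v)) ⁻¹' (A : Set G)ᶜ ∈ 𝓝 (1 : G) :=
      hc.continuousAt.preimage_mem_nhds (hA.isOpen_compl.mem_nhds (by simpa using hx))
    obtain ⟨u', hu', _, ⟨a, -, rfl⟩, h2⟩ := hall _ h1 _ (image_mem_map univ_mem)
    apply hu'
    have h3 : u' * (a : G) = u⁻¹ * v := h2
    show u'⁻¹ * (u⁻¹ * v) ∈ A
    rw [← h3]
    simp
  have huA : u ∈ A := by
    have := A.mul_mem v.2 (A.inv_mem hx)
    simpa [mul_assoc] using this
  refine ⟨⟨u, huA⟩, hu, fun ψ hψ => ?_⟩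
  by_contra hne
  obtain ⟨O, hO, hOO⟩ := exists_nhds_one_split (M := Circle)
    (isOpen_compl_singleton.mem_nhds (Ne.symm hne))
  have h1 : ψ ⁻¹' O ∈ 𝓝 (1 : A) :=
    (hM ψ hψ).continuousAt.preimage_mem_nhds (by rwa [map_one])
  rw [nhds_subtype_eq_comap, mem_comap] at h1
  obtain ⟨U', hU', hU'O⟩ := h1
  obtain ⟨u', hu', _, ⟨a, ha, rfl⟩, h2⟩ := hall _ hU' _ (image_mem_map (hWt ⟨ψ, hψ⟩ hO))
  have h3 : u' * (a : G) = u⁻¹ * v := h2
  have hu'A : u' ∈ A := by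
    have := A.mul_mem hx (A.inv_mem a.2)
    rw [← h3] at this
    simpa using this
  have h4 : (⟨u', hu'A⟩ : A) * a = (⟨u, huA⟩ : A)⁻¹ * v := Subtype.ext h3
  refine hOO (ψ ⟨u', hu'A⟩) (hU'O hu') (ψ a) ha ?_
  rw [← map_mul, h4]
  rfl

/-- Invariant groups of continuous characters are annihilator closed. -/
theorem mem_of_annihilates (hG : OMP G) (A : Subgroup G) [A.Normal]
    (hA : IsClosed (A : Set G)) (M : Subgroup (A →* Circle)) (hM : ∀ ψ ∈ M, Continuous ψ)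
    (hinv : ∀ g : G, ∀ ψ ∈ M, ψ.comp (MulAut.conjNormal g : A ≃* A).toMonoidHom ∈ M)
    (hst : ∀ ψ ∈ M, ∃ U ∈ 𝓝 (1 : G), ∀ u ∈ U, ∀ a : A, ψ (MulAut.conjNormal u a) = ψ a)
    (χ : A →* Circle) (hχ : Continuous χ) (hann : ∀ a : A, (∀ ψ ∈ M, ψ a = 1) → χ a = 1) :
    χ ∈ M := by
  refine mem_of_tendsto_weak M χ fun O hO => ?_
  have h1 : χ ⁻¹' O ∈ 𝓝 (1 : A) := hχ.continuousAt.preimage_mem_nhds (by rwa [map_one])
  rw [nhds_subtype_eq_comap, mem_comap] at h1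
  obtain ⟨U, hU, hUO⟩ := h1
  obtain ⟨V, hV, hVU⟩ := weak hG A hA M hM hinv hst U hU
  refine mem_map.mpr (mem_of_superset hV fun v hv => ?_)
  obtain ⟨u, hu, h2⟩ := hVU v hv
  have h3 := hann _ h2
  rw [map_mul, map_inv, inv_mul_eq_one] at h3
  show χ v ∈ O
  rw [← h3]
  exact hUO hu

/-- If continuous characters separate points and have open stabilisers, then the subgroup carries
the weak topology. -/
theorem nhds_eq_weak (hG : OMP G) (A : Subgroup G) [A.Normal] (hA : IsClosed (A : Set G))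
    (hsep : ∀ a : A, a ≠ 1 → ∃ χ : A →* Circle, Continuous χ ∧ χ a ≠ 1)
    (hst : ∀ ψ ∈ chars A, ∃ U ∈ 𝓝 (1 : G), ∀ u ∈ U, ∀ a : A, ψ (MulAut.conjNormal u a) = ψ a) :
    𝓝 (1 : A) = comap (fun (a : A) (ψ : chars A) => ψ.1 a) (𝓝 1) := by
  refine le_antisymm ?_ fun T hT => ?_
  · rw [← tendsto_iff_comap, tendsto_pi_nhds]
    intro ψ
    have := ψ.2.tendsto (1 : A)
    rwa [map_one] at this
  · rw [nhds_subtype_eq_comap, mem_comap] at hT
    obtain ⟨U, hU, hUT⟩ := hT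
    obtain ⟨V, hV, hVU⟩ := weak hG A hA (chars A) (fun _ h => h)
      (fun g ψ hψ => Continuous.comp (g := ψ) hψ (continuous_conjNormal A g)) hst U hU
    refine mem_of_superset hV fun v hv => hUT ?_
    obtain ⟨u, hu, h⟩ := hVU v hv
    have h1 : u⁻¹ * v = 1 := by
      by_contra hne
      obtain ⟨χ, hχc, hχa⟩ := hsep _ hne
      exact hχa (h χ hχc)
    rw [inv_mul_eq_one] at h1
    rw [← h1]
    exact hu

theorem precompact_of_compact {K : Type*} [Group K] [TopologicalSpace K] [IsTopologicalGroup K]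
    [CompactSpace K] : IsPrecompactGroup K := fun U hU => by
  obtain ⟨F, -, hF⟩ := isCompact_univ.elim_nhds_subcover (fun x : K => (fun u => x * u) '' U)
    fun x _ => by simpa using (isOpenMap_mul_left x).image_mem_nhds hU
  refine ⟨F, F.finite_toSet, eq_univ_of_forall fun y => ?_⟩
  obtain ⟨x, hx, hu⟩ : ∃ x ∈ F, x⁻¹ * y ∈ U := by simpa using hF (mem_univ y)
  exact ⟨x, hx, x⁻¹ * y, hu, mul_inv_cancel_left x y⟩

theorem precompact_of_comap {A K : Type*} [Group A] [TopologicalSpace A] [Group K]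
    [TopologicalSpace K] [IsTopologicalGroup K] [CompactSpace K] (Φ : A →* K)
    (h : 𝓝 (1 : A) = comap Φ (𝓝 1)) : IsPrecompactGroup A := fun U hU => by
  rw [h, mem_comap] at hU
  obtain ⟨O, hO, hOU⟩ := hU
  obtain ⟨F, hF, hFO⟩ := (precompact_of_compact (K := K)).subgroup Φ.range _
    (continuous_subtype_val.continuousAt.preimage_mem_nhds hO)
  choose s hs using fun y : Φ.range => y.2
  refine ⟨s '' F, hF.image s, eq_univ_of_forall fun a => ?_⟩
  obtain ⟨f, hf, o, ho, e⟩ : (⟨Φ a, a, rfl⟩ : Φ.range) ∈ F * (Subtype.val ⁻¹' O) := by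
    rw [hFO]
    exact mem_univ _
  refine ⟨s f, mem_image_of_mem s hf, (s f)⁻¹ * a, hOU ?_, by simp⟩
  have e1 : (f : K) * o = Φ a := congrArg Subtype.val e
  show Φ ((s f)⁻¹ * a) ∈ O
  rw [map_mul, map_inv, hs, ← e1, inv_mul_cancel_left]
  exact ho

theorem isClosed_center [T2Space G] : IsClosed (Subgroup.center G : Set G) := by
  have : (Subgroup.center G : Set G) = ⋂ g : G, {z | g * z = z * g} := by
    ext z
    simp [Subgroup.mem_center_iff]
  rw [this]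
  exact isClosed_iInter fun g => isClosed_eq (by fun_prop) (by fun_prop)

theorem exists_char_of_comm {A : Type u} [Group A] [TopologicalSpace A] [IsTopologicalGroup A]
    [T2Space A] (hcomm : ∀ a b : A, a * b = b * a) (hP : LocPre A) (x : A) (hx : x ≠ 1) :
    ∃ χ : A →* Circle, Continuous χ ∧ χ x ≠ 1 := by
  let _ : CommGroup A := { ‹Group A› with mul_comm := hcomm }
  exact exists_char_locPre hP x hx

theorem precompact_center [T2Space G] (hG : OMP G) (hP : LocPre G) :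
    IsPrecompactGroup (Subgroup.center G) := by
  let Φ : Subgroup.center G →* (chars (Subgroup.center G) → Circle) :=
    MonoidHom.mk' (fun a ψ => ψ.1 a) fun a b => funext fun ψ => map_mul _ a b
  refine precompact_of_comap Φ (nhds_eq_weak hG _ isClosed_center
    (fun a ha => exists_char_of_comm
      (fun x y => Subtype.ext (Subgroup.mem_center_iff.1 y.2 x)) (hP.sub _) a ha)
    fun ψ _ => ⟨univ, univ_mem, fun u _ a => ?_⟩)
  refine congrArg ψ (Subtype.ext ?_)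
  show u * a * u⁻¹ = a
  rw [Subgroup.mem_center_iff.1 a.2 u, mul_inv_cancel_right]

/-- Nilpotent locally precompact groups with the open mapping property are precompact. -/
theorem precompact_of_nilpotent (H : Type u) [Group H] [Group.IsNilpotent H] :
    ∀ [TopologicalSpace H] [IsTopologicalGroup H] [T2Space H], OMP H → LocPre H →
      IsPrecompactGroup H := by
  refine Group.nilpotent_center_quotient_ind (P := fun H _ _ =>
    ∀ [TopologicalSpace H] [IsTopologicalGroup H] [T2Space H], OMP H → LocPre H →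
      IsPrecompactGroup H) H ?_ ?_
  · intro H _ _ _ _ _ _ _ U hU
    exact ⟨{1}, finite_singleton _, eq_univ_of_forall fun x =>
      ⟨1, rfl, 1, mem_of_mem_nhds hU, Subsingleton.elim _ _⟩⟩
  · intro H _ _ ih _ _ _ hG hP U hU
    have hcl : IsClosed (Subgroup.center H : Set H) := isClosed_center
    obtain ⟨V, hV, hVU⟩ := exists_nhds_one_split hU
    obtain ⟨F, hF, h1⟩ := ih (hG.quotient _) (hP.quot _) _
      (QuotientGroup.isOpenMap_coe.image_mem_nhds hV)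
    obtain ⟨E, hE, h2⟩ := precompact_center hG hP _
      (continuous_subtype_val.continuousAt.preimage_mem_nhds hV)
    refine ⟨Quotient.out '' F * Subtype.val '' E, (hF.image _).mul (hE.image _),
      eq_univ_of_forall fun x => ?_⟩
    obtain ⟨f, hf, _, ⟨v, hv, rfl⟩, e⟩ : (x : H ⧸ Subgroup.center H) ∈
        F * ((QuotientGroup.mk : H → H ⧸ Subgroup.center H) '' V) := by
      rw [h1]
      exact mem_univ _
    have h3 : (f.out * v)⁻¹ * x ∈ Subgroup.center H := by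
      rw [← QuotientGroup.eq, QuotientGroup.mk_mul, QuotientGroup.out_eq']
      exact e
    obtain ⟨z, hz, w, hw, e1⟩ : (⟨_, h3⟩ : Subgroup.center H) ∈ E * (Subtype.val ⁻¹' V) := by
      rw [h2]
      exact mem_univ _
    have e2 : (z : H) * w = (f.out * v)⁻¹ * x := congrArg Subtype.val e1
    refine ⟨f.out * z, mul_mem_mul (mem_image_of_mem _ hf) (mem_image_of_mem _ hz), v * w,
      hVU _ hv _ hw, ?_⟩
    show f.out * z * (v * w) = x
    rw [mul_assoc, ← mul_assoc (z : H), ← Subgroup.mem_center_iff.1 z.2 v, mul_assoc, e2]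
    group

end Pool.Agent.Lib.MP_a4feb0_gt.LP
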